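import Pool.Agent.TH316.AT.Ex

/-!
# EX-FP: the fixed point for the Parisi equation (Banach, weight `exp (l (1 - t))`)
-/

set_option autoImplicit false

open MeasureTheory ProbabilityTheory Set Filter Topology

namespace Pool.TH778.AT

open Pool.TH198.AT Pool.TH316.AT

lemma int_sq : Integrable (fun y : ℝ => y ^ 2) (gaussianReal 0 1) := by
  have h : MemLp (id : ℝ → ℝ) 2 (gaussianReal 0 1) := memLp_id_gaussianReal 2
  exact h.integrable_sq

lemma int_id : Integrable (fun y : ℝ => y) (gaussianReal 0 1) := by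
  have h : MemLp (id : ℝ → ℝ) 1 (gaussianReal 0 1) := memLp_id_gaussianReal 1
  exact memLp_one_iff_integrable.1 h

lemma E_sq : ∫ y : ℝ, y ^ 2 ∂(gaussianReal 0 1) = 1 := by
  have h1 : Var[id; gaussianReal 0 1] = 1 := by
    rw [variance_id_gaussianReal]; simp
  rw [variance_eq_sub (memLp_id_gaussianReal 2)] at h1
  simpa using h1

lemma E_abs : ∫ y : ℝ, |y| ∂(gaussianReal 0 1) ≤ 1 := by
  have h1 : ∫ y : ℝ, |y| ∂(gaussianReal 0 1) ≤ ∫ y : ℝ, (1 + y ^ 2) / 2 ∂(gaussianReal 0 1) := by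
    apply integral_mono int_id.abs
    · exact ((integrable_const 1).add int_sq).div_const 2
    · intro y
      have : 0 ≤ (|y| - 1) ^ 2 := sq_nonneg _
      simp only
      nlinarith [sq_abs y]
  rw [integral_div, integral_add (integrable_const 1) int_sq, E_sq] at h1
  simp at h1
  linarith

lemma ck_mem (t : ℝ) : ck t ∈ Icc (0 : ℝ) 1 :=
  ⟨le_max_left _ _, max_le zero_le_one (min_le_right _ _)⟩

lemma ck_of {t : ℝ} (h : t ∈ Icc (0 : ℝ) 1) : ck t = t := by
  unfold ck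
  rw [min_eq_left h.2, max_eq_right h.1]

lemma ck_cont : Continuous ck := by
  unfold ck
  fun_prop

lemma cl_abs {M u : ℝ} (hM : 0 ≤ M) : |cl M u| ≤ M := by
  unfold cl
  rw [abs_le]
  exact ⟨le_max_left _ _, max_le (by linarith) (min_le_right _ _)⟩

lemma cl_lip (M u v : ℝ) : |cl M u - cl M v| ≤ |u - v| := by
  unfold cl
  rw [max_comm (-M) (min u M), max_comm (-M) (min v M)]
  refine (abs_max_sub_max_le_abs _ _ _).trans ((abs_min_sub_min_le_max u M v M).trans ?_)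
  rw [sub_self, abs_zero]
  exact max_le le_rfl (abs_nonneg _)

lemma cl_of {M u : ℝ} (h : |u| ≤ M) : cl M u = u := by
  unfold cl
  rw [abs_le] at h
  rw [min_eq_left h.2, max_eq_right h.1]

lemma zt_nonneg {ζ : ℝ → ℝ} (hζ : IsCdf ζ) (s : ℝ) : |zt ζ s| ≤ 1 := by
  unfold zt
  split_ifs with h
  · have h1 := hζ.2.1 (max 0 s) ⟨le_max_left _ _, max_le zero_le_one h⟩
    rw [abs_of_nonneg h1.1]
    exact h1.2
  · simp

lemma zt_meas {ζ : ℝ → ℝ} (hζ : IsCdf ζ) : Measurable (zt ζ) := by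
  have h1 : Monotone (fun s => ζ (max 0 (min s 1))) := fun a b hab =>
    hζ.1 ⟨le_max_left _ _, max_le zero_le_one (min_le_right _ _)⟩
      ⟨le_max_left _ _, max_le zero_le_one (min_le_right _ _)⟩
      (max_le_max le_rfl (min_le_min hab le_rfl))
  have h2 : zt ζ = fun s => if s ≤ 1 then ζ (max 0 (min s 1)) else 0 := by
    funext s
    unfold zt
    split_ifs with h
    · rw [min_eq_left h]
    · rfl
  rw [h2]
  exact Measurable.ite measurableSet_Iic h1.measurable measurable_const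

/-- the weight -/
noncomputable def wt (l t : ℝ) : ℝ := Real.exp (l * (1 - ck t))

noncomputable def J (l : ℝ) : ℝ := ∫ u in (0 : ℝ)..1, Real.exp (-l * u ^ 2)

lemma wt_pos (l t : ℝ) : 0 < wt l t := Real.exp_pos _

lemma wt_cont (l : ℝ) : Continuous (wt l) := by
  unfold wt
  have := ck_cont
  fun_prop

lemma wt_le {l : ℝ} (hl : 0 ≤ l) (t : ℝ) : wt l t ≤ Real.exp l := by
  unfold wt
  apply Real.exp_le_exp.2
  have := ck_mem t
  nlinarith [this.1, this.2]

lemma one_le_wt {l : ℝ} (hl : 0 ≤ l) (t : ℝ) : 1 ≤ wt l t := by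
  unfold wt
  apply Real.one_le_exp
  have := ck_mem t
  nlinarith [this.1, this.2]

lemma wt_ck (l t : ℝ) : Real.exp (l * (1 - ck t)) = wt l t := rfl

lemma J_nonneg (l : ℝ) : 0 ≤ J l := by
  unfold J
  exact intervalIntegral.integral_nonneg zero_le_one fun u _ => (Real.exp_pos _).le

lemma ex_l (K : ℝ) (hK : 0 ≤ K) : ∃ l : ℝ, 0 < l ∧ K * J l ≤ 1 / 2 := by
  have hp : 0 < Real.pi * (2 * K + 1) ^ 2 := by positivity
  refine ⟨Real.pi * (2 * K + 1) ^ 2, hp, ?_⟩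
  have h1 : J (Real.pi * (2 * K + 1) ^ 2) ≤ 1 / (2 * K + 1) := by
    unfold J
    rw [intervalIntegral.integral_of_le zero_le_one]
    refine (setIntegral_le_integral (integrable_exp_neg_mul_sq hp)
      (ae_of_all _ fun u => (Real.exp_pos _).le)).trans ?_
    rw [integral_gaussian]
    have : Real.pi / (Real.pi * (2 * K + 1) ^ 2) = (1 / (2 * K + 1)) ^ 2 := by
      have := Real.pi_pos
      field_simp
    rw [this, Real.sqrt_sq (by positivity)]
  calc K * J _ ≤ K * (1 / (2 * K + 1)) := mul_le_mul_of_nonneg_left h1 hK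
    _ ≤ 1 / 2 := by
      rw [mul_one_div, div_le_div_iff₀ (by positivity) (by norm_num)]
      linarith

/-- the common form of `SP` and `SD` -/
noncomputable def Op (ζ c k : ℝ → ℝ) (s : ℝ) (g : ℝ → ℝ → ℝ) (t x : ℝ) : ℝ :=
  ∫ u in (0 : ℝ)..1, c u * (zt ζ (t + u ^ 2) * E1 (fun y => k y * g (t + u ^ 2) (x + s * u * y)))

/-- hypotheses on the kernel factor -/
def HK (k : ℝ → ℝ) : Prop :=
  Continuous k ∧ Integrable k (gaussianReal 0 1) ∧ ∫ y, |k y| ∂(gaussianReal 0 1) ≤ 1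

lemma HK_one : HK (fun _ => 1) := by
  refine ⟨continuous_const, integrable_const _, ?_⟩
  simp

lemma HK_id : HK (fun y => y) := ⟨continuous_id, int_id, E_abs⟩

lemma int_kf {k f : ℝ → ℝ} {C : ℝ} (hk : HK k) (hf : Continuous f) (hb : ∀ y, |f y| ≤ C) :
    Integrable (fun y => k y * f y) (gaussianReal 0 1) := by
  have hk1 := hk.1
  refine (hk.2.1.abs.mul_const C).mono' (by fun_prop) (ae_of_all _ fun y => ?_)
  rw [Real.norm_eq_abs, abs_mul]
  exact mul_le_mul_of_nonneg_left (hb y) (abs_nonneg _)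

lemma E_bound {k f : ℝ → ℝ} {N : ℝ} (hk : HK k) (hf : ∀ y, |f y| ≤ N) :
    |E1 (fun y => k y * f y)| ≤ N := by
  have hN : 0 ≤ N := (abs_nonneg _).trans (hf 0)
  unfold E1
  calc |∫ y, k y * f y ∂(gaussianReal 0 1)| ≤ ∫ y, |k y| * N ∂(gaussianReal 0 1) :=
        norm_integral_le_of_norm_le (hk.2.1.abs.mul_const N) (ae_of_all _ fun y => by
          rw [Real.norm_eq_abs, abs_mul]
          exact mul_le_mul_of_nonneg_left (hf y) (abs_nonneg _))
    _ = (∫ y, |k y| ∂(gaussianReal 0 1)) * N := integral_mul_const _ _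
    _ ≤ 1 * N := mul_le_mul_of_nonneg_right hk.2.2 hN
    _ = N := one_mul N

lemma Op_int {ζ c k : ℝ → ℝ} {s C : ℝ} {g : ℝ → ℝ → ℝ} (hζ : IsCdf ζ) (hc : Continuous c)
    (hk : HK k) (hg : BC C g) (t x : ℝ) : IntervalIntegrable
      (fun u => c u * (zt ζ (t + u ^ 2) * E1 (fun y => k y * g (t + u ^ 2) (x + s * u * y))))
      volume 0 1 := by
  rw [intervalIntegrable_iff_integrableOn_Ioc_of_le zero_le_one]
  have h1 : IntegrableOn c (Ioc 0 1) := (hc.intervalIntegrable 0 1).1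
  have hk1 := hk.1
  have hg1 := hg.1
  have hF : Continuous (fun p : ℝ × ℝ => k p.2 * g (t + p.1 ^ 2) (x + s * p.1 * p.2)) := by
    have : Continuous (fun p : ℝ × ℝ => g (t + p.1 ^ 2) (x + s * p.1 * p.2)) :=
      hg1.comp (by fun_prop : Continuous fun p : ℝ × ℝ => (t + p.1 ^ 2, x + s * p.1 * p.2))
    exact (hk1.comp continuous_snd).mul this
  have hm : Measurable (fun u : ℝ => E1 (fun y => k y * g (t + u ^ 2) (x + s * u * y))) :=
    (hF.stronglyMeasurable.integral_prod_right' (ν := gaussianReal 0 1)).measurable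
  have hz : Measurable (fun u : ℝ => zt ζ (t + u ^ 2)) := (zt_meas hζ).comp (by fun_prop)
  have hfin : Integrable (fun u => (zt ζ (t + u ^ 2) *
      E1 (fun y => k y * g (t + u ^ 2) (x + s * u * y))) * c u) (volume.restrict (Ioc 0 1)) := by
    refine Integrable.bdd_mul (c := C) h1 (hz.mul hm).aestronglyMeasurable (ae_of_all _ fun u => ?_)
    rw [Real.norm_eq_abs, abs_mul]
    have e1 := zt_nonneg hζ (t + u ^ 2)
    have e2 := E_bound hk (fun y => hg.2 (t + u ^ 2) (x + s * u * y))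
    calc _ ≤ 1 * C := mul_le_mul e1 e2 (abs_nonneg _) zero_le_one
      _ = C := one_mul C
  exact hfin.congr (ae_of_all _ fun u => mul_comm _ _)

lemma Op_diff {ζ c k : ℝ → ℝ} {s C C' c0 N l : ℝ} {g g' : ℝ → ℝ → ℝ} (hζ : IsCdf ζ)
    (hc : Continuous c) (hc0 : ∀ u ∈ Ioc (0 : ℝ) 1, |c u| ≤ c0) (hk : HK k) (hg : BC C g)
    (hg' : BC C' g') (hN : 0 ≤ N) (hd : ∀ t x, |g t x - g' t x| ≤ N * wt l t) {t : ℝ}
    (ht : t ∈ Icc (0 : ℝ) 1) (x : ℝ) :
    |Op ζ c k s g t x - Op ζ c k s g' t x| ≤ c0 * N * wt l t * J l := by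
  have hc00 : 0 ≤ c0 := (abs_nonneg _).trans (hc0 1 ⟨one_pos, le_rfl⟩)
  unfold Op
  rw [← intervalIntegral.integral_sub (Op_int hζ hc hk hg t x) (Op_int hζ hc hk hg' t x)]
  have key : ‖∫ u in (0 : ℝ)..1,
      (c u * (zt ζ (t + u ^ 2) * E1 (fun y => k y * g (t + u ^ 2) (x + s * u * y))) -
       c u * (zt ζ (t + u ^ 2) * E1 (fun y => k y * g' (t + u ^ 2) (x + s * u * y))))‖ ≤
      ∫ u in (0 : ℝ)..1, c0 * N * wt l t * Real.exp (-l * u ^ 2) := by
    apply intervalIntegral.norm_integral_le_of_norm_le zero_le_one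
    · refine ae_of_all _ fun u hu => ?_
      have hi : ∀ (G : ℝ → ℝ → ℝ) (D : ℝ), BC D G →
          Integrable (fun y => k y * G (t + u ^ 2) (x + s * u * y)) (gaussianReal 0 1) := by
        intro G D hG
        refine int_kf hk ?_ (fun y => hG.2 _ _)
        exact hG.1.comp (by fun_prop : Continuous fun y : ℝ => (t + u ^ 2, x + s * u * y))
      have hE : E1 (fun y => k y * g (t + u ^ 2) (x + s * u * y)) -
          E1 (fun y => k y * g' (t + u ^ 2) (x + s * u * y)) =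
          E1 (fun y => k y * (g (t + u ^ 2) (x + s * u * y) - g' (t + u ^ 2) (x + s * u * y))) := by
        unfold E1
        rw [← integral_sub (hi g C hg) (hi g' C' hg')]
        congr 1
        funext y
        ring
      rw [← mul_sub, ← mul_sub, hE, Real.norm_eq_abs, abs_mul, abs_mul]
      by_cases hr : t + u ^ 2 ≤ 1
      · have hmem : t + u ^ 2 ∈ Icc (0 : ℝ) 1 := ⟨by have := ht.1; positivity, hr⟩
        have e1 := E_bound hk (fun y => hd (t + u ^ 2) (x + s * u * y))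
        have e2 := zt_nonneg hζ (t + u ^ 2)
        have e3 : wt l (t + u ^ 2) = wt l t * Real.exp (-l * u ^ 2) := by
          unfold wt
          rw [ck_of hmem, ck_of ht, ← Real.exp_add]
          congr 1
          ring
        rw [e3] at e1
        have e4 : 0 ≤ N * (wt l t * Real.exp (-l * u ^ 2)) :=
          mul_nonneg hN (mul_nonneg (wt_pos _ _).le (Real.exp_pos _).le)
        calc _ ≤ c0 * (1 * (N * (wt l t * Real.exp (-l * u ^ 2)))) :=
              mul_le_mul (hc0 u hu) (mul_le_mul e2 e1 (abs_nonneg _) zero_le_one)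
                (mul_nonneg (abs_nonneg _) (abs_nonneg _)) hc00
          _ = _ := by ring
      · have e5 : zt ζ (t + u ^ 2) = 0 := by
          unfold zt
          rw [if_neg hr]
        rw [e5, abs_zero, zero_mul, mul_zero]
        have := wt_pos l t
        have := Real.exp_pos (-l * u ^ 2)
        positivity
    · exact Continuous.intervalIntegrable (by fun_prop) _ _
  rw [intervalIntegral.integral_const_mul] at key
  exact key

lemma SP_eq (β : ℝ) (ζ : ℝ → ℝ) (g : ℝ → ℝ → ℝ) (t x : ℝ) :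
    SP β ζ g t x = β ^ 2 * Op ζ (fun u => 2 * u) (fun _ => 1) √(2 * β ^ 2) g t x := by
  unfold SP Op
  simp only [one_mul]

lemma SD_eq (β : ℝ) (ζ : ℝ → ℝ) (g : ℝ → ℝ → ℝ) (t x : ℝ) :
    SD β ζ g t x = β ^ 2 * Op ζ (fun _ => 2 / √(2 * β ^ 2)) (fun y => y) √(2 * β ^ 2) g t x := rfl

lemma SP_diff {β C C' N l : ℝ} {ζ : ℝ → ℝ} {g g' : ℝ → ℝ → ℝ} (hζ : IsCdf ζ) (hg : BC C g)
    (hg' : BC C' g') (hN : 0 ≤ N) (hd : ∀ t x, |g t x - g' t x| ≤ N * wt l t) {t : ℝ}
    (ht : t ∈ Icc (0 : ℝ) 1) (x : ℝ) :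
    |SP β ζ g t x - SP β ζ g' t x| ≤ β ^ 2 * 2 * J l * (N * wt l t) := by
  rw [SP_eq, SP_eq, ← mul_sub, abs_mul, abs_of_nonneg (sq_nonneg β)]
  have := Op_diff (c := fun u => 2 * u) (c0 := 2) (s := √(2 * β ^ 2)) hζ (by fun_prop)
    (fun u hu => by
      rw [abs_of_nonneg (by linarith [hu.1])]
      linarith [hu.2]) HK_one hg hg' hN hd ht x
  calc _ ≤ β ^ 2 * (2 * N * wt l t * J l) := mul_le_mul_of_nonneg_left this (sq_nonneg β)
    _ = _ := by ring

lemma SD_diff {β C C' N l : ℝ} {ζ : ℝ → ℝ} {g g' : ℝ → ℝ → ℝ} (hζ : IsCdf ζ) (hg : BC C g)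
    (hg' : BC C' g') (hN : 0 ≤ N) (hd : ∀ t x, |g t x - g' t x| ≤ N * wt l t) {t : ℝ}
    (ht : t ∈ Icc (0 : ℝ) 1) (x : ℝ) :
    |SD β ζ g t x - SD β ζ g' t x| ≤ β ^ 2 * (2 / √(2 * β ^ 2)) * J l * (N * wt l t) := by
  rw [SD_eq, SD_eq, ← mul_sub, abs_mul, abs_of_nonneg (sq_nonneg β)]
  have := Op_diff (c := fun _ => 2 / √(2 * β ^ 2)) (c0 := 2 / √(2 * β ^ 2)) (s := √(2 * β ^ 2)) hζ
    continuous_const (fun u _ => by
      rw [abs_of_nonneg (by positivity)]) HK_id hg hg' hN hd ht x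
  calc _ ≤ β ^ 2 * (2 / √(2 * β ^ 2) * N * wt l t * J l) :=
        mul_le_mul_of_nonneg_left this (sq_nonneg β)
    _ = _ := by ring

lemma BC_zero : BC 0 (fun _ _ => 0) := ⟨continuous_const, fun _ _ => by simp⟩

lemma SD_zero (β : ℝ) (ζ : ℝ → ℝ) (t x : ℝ) : SD β ζ (fun _ _ => 0) t x = 0 := by
  unfold SD E1
  simp

theorem t_FP (hC : St_CT) (hP : St_PT) : St_FP := by
  intro β ζ hβ hζ
  obtain ⟨hP1, hP2, -⟩ := hP β hβ
  obtain ⟨A, hA⟩ : ∃ A : ℝ, A = β ^ 2 * 2 := ⟨_, rfl⟩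
  obtain ⟨B, hB⟩ : ∃ B : ℝ, B = β ^ 2 * (2 / √(2 * β ^ 2)) := ⟨_, rfl⟩
  have hA0 : 0 ≤ A := by rw [hA]; positivity
  have hB0 : 0 ≤ B := by rw [hB]; positivity
  obtain ⟨l0, hl0, hJ0⟩ := ex_l (2 * B) (by positivity)
  obtain ⟨M, hM⟩ : ∃ M : ℝ, M = 1 + Real.exp l0 := ⟨_, rfl⟩
  have hM0 : 0 ≤ M := by rw [hM]; positivity
  obtain ⟨l, hl, hJ⟩ := ex_l (2 * M * A + 2 * B) (by positivity)
  obtain ⟨gg, hgg⟩ : ∃ gg : BoundedContinuousFunction (ℝ × ℝ) ℝ → ℝ → ℝ → ℝ,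
    gg = fun h t x => wt l t * h (t, x) := ⟨_, rfl⟩
  have hBC : ∀ h, BC (Real.exp l * ‖h‖) (gg h) := by
    intro h
    rw [hgg]
    refine ⟨?_, fun t x => ?_⟩
    · exact ((wt_cont l).comp continuous_fst).mul h.continuous
    · rw [abs_mul, abs_of_pos (wt_pos l t)]
      exact mul_le_mul (wt_le hl.le t) (h.norm_coe_le_norm (t, x)) (abs_nonneg _) (Real.exp_pos _).le
  have hW : ∀ h, Continuous (fun p : ℝ × ℝ => WW β ζ (gg h) (ck p.1) p.2) := fun h => by
    unfold WW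
    exact hP1.1.add (hC β _ ζ (gg h) hβ hζ (hBC h)).1.1
  have hZ : ∀ h, Continuous (fun p : ℝ × ℝ => ZZ β ζ (gg h) (ck p.1) p.2) := fun h => by
    unfold ZZ
    exact hP2.1.add (hC β _ ζ (gg h) hβ hζ (hBC h)).2.1
  have hclc : ∀ K : ℝ, Continuous (cl K) := fun K => by
    unfold cl
    fun_prop
  obtain ⟨F, hF⟩ : ∃ F : BoundedContinuousFunction (ℝ × ℝ) ℝ → ℝ × ℝ → ℝ,
    F = fun h p => (wt l p.1)⁻¹ * (2 * cl 1 (WW β ζ (gg h) (ck p.1) p.2) *
      cl M (ZZ β ζ (gg h) (ck p.1) p.2)) := ⟨_, rfl⟩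
  have hFc : ∀ h, Continuous (F h) := by
    intro h
    rw [hF]
    refine Continuous.mul ?_ ?_
    · exact ((wt_cont l).comp continuous_fst).inv₀ (fun p => (wt_pos l p.1).ne')
    · exact (continuous_const.mul ((hclc 1).comp (hW h))).mul ((hclc M).comp (hZ h))
  have hFb : ∀ h p, ‖F h p‖ ≤ 2 * M := by
    intro h p
    rw [hF]
    simp only
    rw [Real.norm_eq_abs, abs_mul, abs_mul, abs_mul, abs_of_pos (inv_pos.2 (wt_pos l p.1)), abs_two]
    have e1 : |cl 1 (WW β ζ (gg h) (ck p.1) p.2)| ≤ 1 := cl_abs zero_le_one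
    have e2 : |cl M (ZZ β ζ (gg h) (ck p.1) p.2)| ≤ M := cl_abs hM0
    have e3 : (wt l p.1)⁻¹ ≤ 1 := inv_le_one_of_one_le₀ (one_le_wt hl.le p.1)
    have e4 : 0 < (wt l p.1)⁻¹ := inv_pos.2 (wt_pos l p.1)
    calc _ ≤ 1 * (2 * 1 * M) := by
          apply mul_le_mul e3 _ (by positivity) zero_le_one
          exact mul_le_mul (mul_le_mul_of_nonneg_left e1 (by norm_num)) e2 (abs_nonneg _) (by norm_num)
      _ = 2 * M := by ring
  obtain ⟨T, hT⟩ : ∃ T : BoundedContinuousFunction (ℝ × ℝ) ℝ → BoundedContinuousFunction (ℝ × ℝ) ℝ,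
    ∀ h p, T h p = F h p :=
    ⟨fun h => BoundedContinuousFunction.ofNormedAddCommGroup (F h) (hFc h) (2 * M) (hFb h),
      fun h p => rfl⟩
  have hcon : ContractingWith (1 / 2 : NNReal) T := by
    refine ⟨by
      rw [← NNReal.coe_lt_coe]
      norm_num, LipschitzWith.of_dist_le_mul fun h h' => ?_⟩
    have hhalf : ((1 / 2 : NNReal) : ℝ) = 1 / 2 := by norm_num
    rw [hhalf]
    have hN : 0 ≤ dist h h' := dist_nonneg
    rw [BoundedContinuousFunction.dist_le (by positivity)]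
    intro p
    have hd : ∀ t x, |gg h t x - gg h' t x| ≤ dist h h' * wt l t := by
      intro t x
      rw [hgg]
      simp only
      rw [← mul_sub, abs_mul, abs_of_pos (wt_pos l t), mul_comm]
      apply mul_le_mul_of_nonneg_right _ (wt_pos l t).le
      have := BoundedContinuousFunction.dist_coe_le_dist (f := h) (g := h') (t, x)
      rwa [Real.dist_eq] at this
    have h1 := SP_diff (β := β) hζ (hBC h) (hBC h') hN hd (ck_mem p.1) p.2
    have h2 := SD_diff (β := β) hζ (hBC h) (hBC h') hN hd (ck_mem p.1) p.2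
    rw [← hA] at h1
    rw [← hB] at h2
    have hwk : wt l (ck p.1) = wt l p.1 := by
      unfold wt
      rw [ck_of (ck_mem p.1)]
    rw [hwk] at h1 h2
    rw [hT, hT, hF, Real.dist_eq]
    simp only
    rw [← mul_sub, abs_mul, abs_of_pos (inv_pos.2 (wt_pos l p.1))]
    obtain ⟨w, hw⟩ : ∃ w, w = WW β ζ (gg h) (ck p.1) p.2 := ⟨_, rfl⟩
    obtain ⟨w', hw'⟩ : ∃ w, w = WW β ζ (gg h') (ck p.1) p.2 := ⟨_, rfl⟩
    obtain ⟨z, hz⟩ : ∃ w, w = ZZ β ζ (gg h) (ck p.1) p.2 := ⟨_, rfl⟩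
    obtain ⟨z', hz'⟩ : ∃ w, w = ZZ β ζ (gg h') (ck p.1) p.2 := ⟨_, rfl⟩
    rw [← hw, ← hw', ← hz, ← hz']
    have e1 : |w - w'| ≤ A * J l * (dist h h' * wt l p.1) := by
      rw [hw, hw']
      unfold WW
      rw [add_sub_add_left_eq_sub]
      exact h1
    have e2 : |z - z'| ≤ B * J l * (dist h h' * wt l p.1) := by
      rw [hz, hz']
      unfold ZZ
      rw [add_sub_add_left_eq_sub]
      exact h2
    have e3 : |2 * cl 1 w * cl M z - 2 * cl 1 w' * cl M z'| ≤ 2 * M * |w - w'| + 2 * |z - z'| := by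
      have : 2 * cl 1 w * cl M z - 2 * cl 1 w' * cl M z' =
          2 * ((cl 1 w - cl 1 w') * cl M z) + 2 * (cl 1 w' * (cl M z - cl M z')) := by ring
      rw [this]
      refine (abs_add_le _ _).trans ?_
      rw [abs_mul, abs_mul, abs_mul, abs_mul, abs_two]
      have i1 := cl_lip 1 w w'
      have i2 : |cl M z| ≤ M := cl_abs hM0
      have i3 : |cl 1 w'| ≤ 1 := cl_abs zero_le_one
      have i4 := cl_lip M z z'
      have j1 : |cl 1 w - cl 1 w'| * |cl M z| ≤ |w - w'| * M :=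
        mul_le_mul i1 i2 (abs_nonneg _) (abs_nonneg _)
      have j2 : |cl 1 w'| * |cl M z - cl M z'| ≤ 1 * |z - z'| :=
        mul_le_mul i3 i4 (abs_nonneg _) zero_le_one
      linarith
    have hwp := wt_pos l p.1
    have e4 : |2 * cl 1 w * cl M z - 2 * cl 1 w' * cl M z'| ≤
        (1 / 2 * dist h h') * wt l p.1 := by
      refine e3.trans ?_
      have k1 : 2 * M * |w - w'| ≤ 2 * M * (A * J l * (dist h h' * wt l p.1)) :=
        mul_le_mul_of_nonneg_left e1 (by positivity)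
      have k2 : ((2 * M * A + 2 * B) * J l) * (dist h h' * wt l p.1) ≤
          1 / 2 * (dist h h' * wt l p.1) :=
        mul_le_mul_of_nonneg_right hJ (by positivity)
      nlinarith
    rw [inv_mul_le_iff₀ hwp, mul_comm (wt l p.1)]
    exact e4
  have hfix := hcon.fixedPoint_isFixedPt
  obtain ⟨h, hh⟩ : ∃ h, T h = h := ⟨_, hfix⟩
  have hg : ∀ t x, gg h t x = 2 * cl 1 (WW β ζ (gg h) (ck t) x) * cl M (ZZ β ζ (gg h) (ck t) x) := by
    intro t x
    have e1 : h (t, x) = F h (t, x) := by rw [← hT, hh]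
    have e2 : gg h t x = wt l t * h (t, x) := by rw [hgg]
    rw [e2, e1, hF]
    simp only
    rw [← mul_assoc, mul_inv_cancel₀ (wt_pos l t).ne', one_mul]
  have hbnd : ∀ t x, |gg h t x| ≤ 2 * M := by
    intro t x
    rw [hg, abs_mul, abs_mul, abs_two]
    have e1 : |cl 1 (WW β ζ (gg h) (ck t) x)| ≤ 1 := cl_abs zero_le_one
    have e2 : |cl M (ZZ β ζ (gg h) (ck t) x)| ≤ M := cl_abs hM0
    calc _ ≤ (2 * 1) * M := mul_le_mul (mul_le_mul_of_nonneg_left e1 (by norm_num)) e2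
          (abs_nonneg _) (by norm_num)
      _ = 2 * M := by ring
  have hgBC : BC (2 * M) (gg h) := ⟨(hBC h).1, hbnd⟩
  -- the a priori bound
  obtain ⟨k, hk⟩ : ∃ k : BoundedContinuousFunction (ℝ × ℝ) ℝ, ∀ p, k p = (wt l0 p.1)⁻¹ * gg h p.1 p.2 := by
    refine ⟨BoundedContinuousFunction.ofNormedAddCommGroup
      (fun p : ℝ × ℝ => (wt l0 p.1)⁻¹ * gg h p.1 p.2) ?_ (2 * M) ?_, fun p => rfl⟩
    · exact (((wt_cont l0).comp continuous_fst).inv₀ (fun p => (wt_pos l0 p.1).ne')).mul (hBC h).1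
    · intro p
      rw [Real.norm_eq_abs, abs_mul, abs_of_pos (inv_pos.2 (wt_pos l0 p.1))]
      calc _ ≤ 1 * (2 * M) := mul_le_mul (inv_le_one_of_one_le₀ (one_le_wt hl0.le p.1)) (hbnd _ _)
            (abs_nonneg _) zero_le_one
        _ = 2 * M := one_mul _
  have hkg : ∀ t x, |gg h t x| ≤ ‖k‖ * wt l0 t := by
    intro t x
    have e1 := k.norm_coe_le_norm (t, x)
    rw [hk, Real.norm_eq_abs, abs_mul, abs_of_pos (inv_pos.2 (wt_pos l0 t)),
      inv_mul_le_iff₀ (wt_pos l0 t), mul_comm] at e1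
    exact e1
  have hZb : ∀ t x, |ZZ β ζ (gg h) (ck t) x| ≤ 1 + B * J l0 * (‖k‖ * wt l0 t) := by
    intro t x
    unfold ZZ
    refine (abs_add_le _ _).trans ?_
    have e1 := hP2.2 t x
    have e2 := SD_diff (β := β) hζ hgBC BC_zero (norm_nonneg k)
      (fun t x => by rw [sub_zero]; exact hkg t x) (ck_mem t) x
    rw [SD_zero, sub_zero, ← hB] at e2
    have hwk : wt l0 (ck t) = wt l0 t := by
      unfold wt
      rw [ck_of (ck_mem t)]
    rw [hwk] at e2
    linarith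
  have hk4 : ‖k‖ ≤ 4 := by
    have : ‖k‖ ≤ 2 + ‖k‖ / 2 := by
      rw [BoundedContinuousFunction.norm_le (by positivity)]
      intro p
      rw [hk, Real.norm_eq_abs, abs_mul, abs_of_pos (inv_pos.2 (wt_pos l0 p.1)),
        inv_mul_le_iff₀ (wt_pos l0 p.1)]
      have e1 : |gg h p.1 p.2| ≤ 2 * |ZZ β ζ (gg h) (ck p.1) p.2| := by
        rw [hg, abs_mul, abs_mul, abs_two]
        have e1 : |cl 1 (WW β ζ (gg h) (ck p.1) p.2)| ≤ 1 := cl_abs zero_le_one
        have e2 : |cl M (ZZ β ζ (gg h) (ck p.1) p.2)| ≤ |ZZ β ζ (gg h) (ck p.1) p.2| := by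
          have := cl_lip M (ZZ β ζ (gg h) (ck p.1) p.2) 0
          rwa [cl_of (u := 0) (by simpa using hM0), sub_zero, sub_zero] at this
        calc _ ≤ (2 * 1) * |ZZ β ζ (gg h) (ck p.1) p.2| :=
              mul_le_mul (mul_le_mul_of_nonneg_left e1 (by norm_num)) e2 (abs_nonneg _) (by norm_num)
          _ = _ := by ring
      have e2 := hZb p.1 p.2
      have e3 := one_le_wt hl0.le p.1
      have e4 : (2 * B * J l0) * (‖k‖ * wt l0 p.1) ≤ 1 / 2 * (‖k‖ * wt l0 p.1) :=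
        mul_le_mul_of_nonneg_right hJ0 (mul_nonneg (norm_nonneg _) (wt_pos _ _).le)
      nlinarith
    linarith
  have hZM : ∀ t x, |ZZ β ζ (gg h) (ck t) x| ≤ M := by
    intro t x
    refine (hZb t x).trans ?_
    rw [hM]
    have e1 : ‖k‖ * wt l0 t ≤ 4 * Real.exp l0 :=
      mul_le_mul hk4 (wt_le hl0.le t) (wt_pos _ _).le (by norm_num)
    have e2 : 0 ≤ B * J l0 := mul_nonneg hB0 (J_nonneg l0)
    have e3 : B * J l0 * (‖k‖ * wt l0 t) ≤ B * J l0 * (4 * Real.exp l0) :=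
      mul_le_mul_of_nonneg_left e1 e2
    have e4 : (2 * B * J l0) * Real.exp l0 ≤ 1 / 2 * Real.exp l0 :=
      mul_le_mul_of_nonneg_right hJ0 (Real.exp_pos _).le
    linarith
  refine ⟨2 * M, gg h, hgBC, fun t x => ?_⟩
  rw [hg t x, cl_of (hZM t x)]

end Pool.TH778.AT
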